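import Pool.Agent.Helper3.FewP.GoalsB

set_option autoImplicit false

noncomputable section

namespace Pool.Agent.Helper85.FewP.ENT

open Pool.Agent.Helper97.Tate Pool.Agent.Helper3.FewP

/-- the functional of `S_EVC` as an additive map. -/
def Ph {k : Type} [Field k] (x : kˣ) (α : ℕ) : LaurentPolynomial k →+ k :=
  (Finsupp.liftAddHom (fun n : ℤ => AddMonoidHom.mulRight
    (((x ^ n : kˣ) : k) * ((Ring.choose n α : ℤ) : k)))).comp
      (AddMonoidAlgebra.coeffAddEquiv (R := k) (M := ℤ)).toAddMonoidHom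

theorem Ph_apply {k : Type} [Field k] (x : kˣ) (α : ℕ) (u : LaurentPolynomial k) :
    Ph x α u = u.coeff.sum
      (fun n a => a * (((x ^ n : kˣ) : k) * ((Ring.choose n α : ℤ) : k))) := rfl

theorem Ph_CT {k : Type} [Field k] (x : kˣ) (α : ℕ) (a : k) (n : ℤ) :
    Ph x α (LaurentPolynomial.C a * LaurentPolynomial.T n) =
      a * (((x ^ n : kˣ) : k) * ((Ring.choose n α : ℤ) : k)) := by
  rw [← LaurentPolynomial.single_eq_C_mul_T, Ph_apply, AddMonoidAlgebra.coeff_single,
    Finsupp.sum_single_index (by rw [zero_mul])]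

theorem mon_exB {k : Type} [Field k] {b : ℕ} (κ : ℕ) (z : kˣ) (x y : Fin b → kˣ) (E : ℤ)
    (i : Fin b) (j r l : ℤ) :
    mon z x y (exB b κ E i j r l) =
      z ^ ((κ : ℤ) * (E - 9 * j) * l) * x i ^ (r + κ * l) * y i ^ j := by
  unfold mon exB
  dsimp only
  rw [Finset.prod_eq_single i, Finset.prod_eq_single i, Pi.single_eq_same, Pi.single_eq_same]
  · intro i' _ h
    rw [Pi.single_eq_of_ne h, zpow_zero]
  · intro h
    exact absurd (Finset.mem_univ i) h
  · intro i' _ h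
    rw [Pi.single_eq_of_ne h, zpow_zero]
  · intro h
    exact absurd (Finset.mem_univ i) h

/-- **ENT**. -/
theorem t : S_EVC → G_ENT := by
  intro hE k _ _ b κ z x y ρ E i j r α β hρ hj hr hrκ
  set c : k := (ρ : k) * (z : k) ^ ((κ : ℤ) * (E - 9 * j)) with hc
  obtain ⟨j', rfl⟩ := Int.eq_ofNat_of_zero_le hj
  rw [(hE k (x i) (Th κ r c) 0 α).2.1, Int.toNat_natCast]
  have hR : (algebraMap (OO k) (KK k) (PowerSeries.C ((y i : kˣ) : k))) ^ j' *
        ((j'.choose β : ℕ) : KK k) *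
          algebraMap (OO k) (KK k) (PowerSeries.coeff α (evx (x i) (Th κ r c))) =
      algebraMap (OO k) (KK k) (PowerSeries.C (((y i : kˣ) : k) ^ j' * ((j'.choose β : ℕ) : k)) *
        PowerSeries.coeff α (evx (x i) (Th κ r c))) := by
    rw [map_mul, map_mul, map_mul, map_pow, map_pow, map_natCast, map_natCast]
  rw [hR]
  unfold fB
  rw [RingHom.comp_apply]
  congr 1
  ext N
  rw [PowerSeries.coeff_map, PowerSeries.coeff_C_mul, (hE k (x i) (Th κ r c) N α).1, ← Ph_apply]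
  unfold entB Th
  rw [PowerSeries.coeff_mk, PowerSeries.coeff_mk, map_sum, map_sum, Finset.mul_sum]
  refine Finset.sum_congr rfl fun l _ => ?_
  by_cases h : qe κ r l = N
  · rw [if_pos h, if_pos h, Ph_CT]
    have h1 : (AddMonoidAlgebra.lift ℚ k (GG b) (mhB z x y) : AddMonoidAlgebra ℚ (GG b) →+* k)
        (AddMonoidAlgebra.single (exB b κ E i j' r l)
          (ρ ^ l * (((j' : ℤ).toNat.choose β : ℕ) : ℚ) * ((Ring.choose (r + κ * l) α : ℤ) : ℚ))) =
        (ρ ^ l * (((j' : ℤ).toNat.choose β : ℕ) : ℚ) * ((Ring.choose (r + κ * l) α : ℤ) : ℚ)) •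
          ((mon z x y (exB b κ E i j' r l) : kˣ) : k) :=
      AddMonoidAlgebra.lift_single _ _ _
    rw [h1, Algebra.smul_def, eq_ratCast, mon_exB, hc, mul_zpow, ← zpow_mul, Int.toNat_natCast]
    push_cast
    rw [zpow_natCast]
    ring
  · rw [if_neg h, if_neg h, map_zero, map_zero, mul_zero]

end Pool.Agent.Helper85.FewP.ENT
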