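import Pool.Agent.Helper3.FewP.Goals2

set_option autoImplicit false

namespace Pool.Agent.Helper85.FewP

open Pool.Agent.Helper3.FewP

/-- **LIF**. -/
theorem t : G_LIF := by
  intro F ρ ι _ _ _ v f hdet
  rw [Fintype.linearIndependent_iff]
  intro w hw i
  have h : (Matrix.of fun (x c : ι) => v c (f x)).mulVec w = 0 := by
    funext x
    have h1 := congrFun hw (f x)
    simp only [Finset.sum_apply, Pi.smul_apply, smul_eq_mul, Pi.zero_apply] at h1
    simp only [Matrix.mulVec, dotProduct, Matrix.of_apply, Pi.zero_apply]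
    rw [← h1]
    exact Finset.sum_congr rfl fun c _ => mul_comm _ _
  exact congrFun (Matrix.eq_zero_of_mulVec_eq_zero hdet h) i

end Pool.Agent.Helper85.FewP
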